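import Pool.Agent.Helper23.PL.Defs
import Pool.Agent.Helper95.HH.GOk
import Pool.Agent.Helper71.QU.Any

/-!
# PL-D6 (MP_0dbcb7_co): cycles of `N` with few branch vertices

The longest thread on the cycle is redrawn along the rest of the cycle (`Helper71/QU/Any.insert_walk`).
-/

set_option autoImplicit false

open Set
open Pool.Agent.Helper83.OP Pool.Agent.Helper93.HH Pool.Agent.Helper95.HH Pool.Agent.Helper71.QU

namespace Pool.Agent.Helper32.PL

open Pool.Agent.Helper23.PL

private theorem cy_pos {V : Type} [Finite V] {G : SimpleGraph V} {a b : V} (h : G.Adj a b) :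
    deg G a ≠ 0 := by
  unfold deg
  intro h0
  rw [Set.ncard_eq_zero (Set.toFinite _)] at h0
  have : b ∈ G.neighborSet a := h
  rw [h0] at this
  exact this

/-- the next vertex of degree at least three -/
private theorem cy_first {V : Type} {G : SimpleGraph V} {u v : V} (p : G.Walk u v) :
    ¬ p.Nil → 3 ≤ deg G v → ∃ (b : V) (T : G.Walk u b) (R : G.Walk b v),
      p = T.append R ∧ ¬ T.Nil ∧ 3 ≤ deg G b ∧
      ∀ x ∈ T.support.tail, x ≠ b → ¬ 3 ≤ deg G x := by
  induction p with
  | nil => exact fun h => absurd SimpleGraph.Walk.Nil.nil h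
  | @cons u u' v h p ih =>
    intro _ hv
    by_cases h3 : 3 ≤ deg G u'
    · refine ⟨u', SimpleGraph.Walk.cons h SimpleGraph.Walk.nil, p, rfl, by simp, h3, ?_⟩
      intro x hx hx2
      simp only [SimpleGraph.Walk.support_cons, SimpleGraph.Walk.support_nil, List.tail_cons,
        List.mem_singleton] at hx
      exact absurd hx hx2
    · have hpn : ¬ p.Nil := by
        intro hn
        exact h3 (hn.eq ▸ hv)
      obtain ⟨b, T, R, e, -, hb, hT⟩ := ih hpn hv
      refine ⟨b, SimpleGraph.Walk.cons h T, R, by rw [e]; rfl, by simp, hb, ?_⟩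
      intro x hx hx2
      rw [SimpleGraph.Walk.support_cons, List.tail_cons, SimpleGraph.Walk.mem_support_iff] at hx
      rcases hx with hx | hx
      · rw [hx]
        exact h3
      · exact hT x hx hx2

/-- a long thread on a walk -/
private theorem cy_long {V : Type} {G : SimpleGraph V} (n : ℕ) : ∀ {u v : V} (p : G.Walk u v),
    p.length ≤ n → ¬ p.Nil → 3 ≤ deg G u → 3 ≤ deg G v →
    ∃ (a b : V) (A : G.Walk u a) (T : G.Walk a b) (R : G.Walk b v),
      p = A.append (T.append R) ∧ ¬ T.Nil ∧ 3 ≤ deg G a ∧ 3 ≤ deg G b ∧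
      (∀ x ∈ T.support.tail, x ≠ b → ¬ 3 ≤ deg G x) ∧
      p.length ≤ (p.support.tail.filter (fun x => 3 ≤ deg G x)).length * T.length := by
  induction n with
  | zero =>
    intro u v p hl hn
    exact absurd (SimpleGraph.Walk.length_eq_zero_iff.1 (Nat.le_zero.1 hl)) hn
  | succ n ih =>
    intro u v p hl hn hu hv
    obtain ⟨b, T, R, e, hTn, hb, hT⟩ := cy_first p hn hv
    have hTl : 1 ≤ T.length := by
      have : T.length ≠ 0 := fun h => hTn (SimpleGraph.Walk.length_eq_zero_iff.1 h)
      omega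
    have hpl : p.length = T.length + R.length := by rw [e, SimpleGraph.Walk.length_append]
    have hps : p.support.tail = T.support.tail ++ R.support.tail := by
      rw [e, SimpleGraph.Walk.support_append, List.tail_append_of_ne_nil T.support_ne_nil]
    have hbT : b ∈ T.support.tail := by
      cases T with
      | nil => exact absurd SimpleGraph.Walk.Nil.nil hTn
      | cons h T' =>
        rw [SimpleGraph.Walk.support_cons, List.tail_cons]
        exact T'.end_mem_support
    have h1 : 1 ≤ (T.support.tail.filter (fun x => 3 ≤ deg G x)).length := by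
      rw [Nat.one_le_iff_ne_zero, Ne, List.length_eq_zero_iff]
      intro h0
      have : b ∈ T.support.tail.filter (fun x => 3 ≤ deg G x) :=
        List.mem_filter.2 ⟨hbT, by simpa using hb⟩
      rw [h0] at this
      exact absurd this (List.not_mem_nil)
    by_cases hR : R.Nil
    · refine ⟨u, b, SimpleGraph.Walk.nil, T, R, by rw [e]; rfl, hTn, hu, hb, hT, ?_⟩
      have hR0 : R.length = 0 := SimpleGraph.Walk.length_eq_zero_iff.2 hR
      rw [hpl, hR0, Nat.add_zero, hps, List.filter_append, List.length_append]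
      exact Nat.le_mul_of_pos_left _ (by omega)
    · obtain ⟨a', b', A', T', R', e', hTn', ha', hb', hT', hl'⟩ := ih R (by omega) hR hb hv
      rw [hps, List.filter_append, List.length_append]
      rcases le_total T.length T'.length with hc | hc
      · refine ⟨a', b', T.append A', T', R', ?_, hTn', ha', hb', hT', ?_⟩
        · rw [e, e', SimpleGraph.Walk.append_assoc]
        · rw [hpl, Nat.add_mul]
          refine Nat.add_le_add ?_ hl'
          exact hc.trans (Nat.le_mul_of_pos_left _ h1)
      · refine ⟨u, b, SimpleGraph.Walk.nil, T, R, by rw [e]; rfl, hTn, hu, hb, hT, ?_⟩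
        rw [hpl, Nat.add_mul]
        refine Nat.add_le_add ?_ (hl'.trans (Nat.mul_le_mul_left _ hc))
        exact Nat.le_mul_of_pos_left _ h1

private theorem cy_VN {V P Q : Type} [Finite V] {D : HD V P Q} {v : V} {Z : D.N.Walk v v}
    (hZ : Z.IsCycle) : ∀ y ∈ Z.support, y ∈ D.VN := by
  intro y hy
  have hv : v ∈ D.VN := by
    cases Z with
    | nil => exact absurd rfl hZ.ne_nil
    | cons h _ => exact HD.VN_of_adj h
  exact HD.VN_of_walk Z hv hy

private theorem cy_num {x k l t c s q : ℕ} (_hx : 2 ≤ x) (_hk : 1 ≤ k) (hl1 : 1 ≤ l) (ht : 1 ≤ t)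
    (hc : c ≤ k) (hl : l ≤ c * t) (hs : s ≤ 2 * (l + 1) + x * k) (hq : q ≤ l) :
    2 * (s + 8 * q) ≤ (24 * k + 2 * (x * k)) * t := by
  have h1 : l ≤ k * t := hl.trans (Nat.mul_le_mul_right _ hc)
  have h2 : x * k ≤ x * k * t := Nat.le_mul_of_pos_right _ ht
  have h3 : (24 * k + 2 * (x * k)) * t = 24 * (k * t) + 2 * (x * k * t) := by ring
  rw [h3]
  omega

/-- **PL-D6 (cyc).** -/
theorem draw_cyc : ∃ c : ℕ, ∀ (V P Q : Type) [Finite V] [Finite P] [Finite Q] (D : HD V P Q)
    (k : ℕ), D.Ok → GOk D → 1 ≤ k →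
    (∀ e ∈ D.G.edgeSet, KPl 1 (D.G.deleteEdges {e})) →
    ∀ v (Z : D.N.Walk v v), Z.IsCycle → {z | z ∈ Z.support ∧ 3 ≤ D.dg z}.ncard ≤ k →
    KPl (c * (D.Kh * D.r * k) ^ c) D.G := by
  refine ⟨60, ?_⟩
  intro V P Q _ _ _ D k hD hG hk hcrit v Z hZ hcard
  classical
  have hVN := cy_VN hZ
  have hx : 2 ≤ D.Kh * D.r := by
    have h1 := hVN v Z.start_mem_support
    exact (hD.two v h1).trans (hD.dg_le v (HD.VN_U hD h1))
  have hZ' : (Z.mapLe hD.N_le).IsCycle := (SimpleGraph.Walk.isCycle_mapLe hD.N_le).2 hZ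
  obtain ⟨u, hu, b0, hb0, hub, hu3, hb3⟩ := hG.cyc v _ hZ'
  obtain ⟨Z1, hZ1e⟩ : ∃ Z1, Z1 = (Z.mapLe hD.N_le).rotate u hu := ⟨_, rfl⟩
  have hZ1 : Z1.IsCycle := by
    rw [hZ1e]
    exact hZ'.rotate hu
  have hl1 : Z1.length = Z.length := by
    rw [hZ1e, SimpleGraph.Walk.length_rotate, SimpleGraph.Walk.length_mapLe]
  have hs1 : ∀ y, y ∈ Z1.support → y ∈ Z.support := by
    intro y hy
    rw [hZ1e, SimpleGraph.Walk.mem_support_rotate_iff] at hy
    rw [SimpleGraph.Walk.support_mapLe_eq_support] at hy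
    exact hy
  have hb1 : b0 ∈ Z1.support := by
    rw [hZ1e, SimpleGraph.Walk.mem_support_rotate_iff]
    exact hb0
  have hZn : ¬ Z1.Nil := hZ1.not_nil
  obtain ⟨a, b, A, T, R, e, hTn, ha3, hb3', hT, hlen⟩ := cy_long Z1.length Z1 le_rfl hZn hu3 hu3
  -- the number of branch vertices
  have hcnt : (Z1.support.tail.filter (fun x => 3 ≤ deg D.G x)).length ≤ k := by
    refine le_trans ?_ hcard
    have hnd : (Z1.support.tail.filter (fun x => 3 ≤ deg D.G x)).Nodup :=
      hZ1.support_nodup.filter _
    rw [← List.toFinset_card_of_nodup hnd, ← Set.ncard_coe_finset]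
    refine Set.ncard_le_ncard ?_ (Set.toFinite _)
    intro z hz
    rw [Finset.mem_coe, List.mem_toFinset, List.mem_filter] at hz
    have hz1 : z ∈ Z.support := hs1 z (List.mem_of_mem_tail hz.1)
    refine ⟨hz1, ?_⟩
    rw [← hG.dg_eq z (hVN z hz1)]
    simpa using hz.2
  have hTl : 1 ≤ T.length := by
    have : T.length ≠ 0 := fun h => hTn (SimpleGraph.Walk.length_eq_zero_iff.1 h)
    omega
  -- not the whole cycle
  have hAR : ¬ (A.Nil ∧ R.Nil) := by
    rintro ⟨hA, hR⟩
    have hau : u = a := hA.eq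
    have hbu : b = u := hR.eq
    subst hau
    subst hbu
    have hA' : A = SimpleGraph.Walk.nil := hA.eq_nil
    have hR' : R = SimpleGraph.Walk.nil := hR.eq_nil
    rw [hA', hR', SimpleGraph.Walk.nil_append, SimpleGraph.Walk.append_nil] at e
    have h5 : b0 ∈ T.support.tail := by
      have h6 := hb1
      rw [e, SimpleGraph.Walk.mem_support_iff] at h6
      rcases h6 with h6 | h6
      · exact absurd h6.symm hub
      · exact h6
    exact hT b0 h5 hub.symm hb3
  have hTp : T.IsPath := by
    by_cases hA : A.Nil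
    · have hR : ¬ R.Nil := fun h => hAR ⟨hA, h⟩
      have hau : u = a := hA.eq
      subst hau
      have hA' : A = SimpleGraph.Walk.nil := hA.eq_nil
      rw [hA', SimpleGraph.Walk.nil_append] at e
      rw [e] at hZ1
      exact hZ1.isPath_of_append_left hR
    · rw [e] at hZ1
      exact (hZ1.isPath_of_append_right hA).of_append_left
  have hab : a ≠ b := by
    intro h
    subst h
    exact hTn ((SimpleGraph.Walk.isPath_iff_nil.1 hTp))
  have hTsub : ∀ x ∈ T.support, x ∈ Z1.support := by
    intro x hx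
    rw [e, SimpleGraph.Walk.mem_support_append_iff, SimpleGraph.Walk.mem_support_append_iff]
    exact Or.inr (Or.inl hx)
  have hT2 : ∀ x ∈ T.support, x ≠ a → x ≠ b → deg D.G x = 2 := by
    intro x hx h1 h2
    have h3 : ¬ 3 ≤ deg D.G x := by
      rw [SimpleGraph.Walk.mem_support_iff] at hx
      rcases hx with hx | hx
      · exact absurd hx h1
      · exact hT x hx h2
    have h4 := hG.deg_ne x
    have h6 := hVN x (hs1 x (hTsub x hx))
    have h5 := hD.two x h6
    rw [← hG.dg_eq x h6] at h5
    omega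
  obtain ⟨W, hW⟩ : ∃ W, W = A.reverse.append R.reverse := ⟨_, rfl⟩
  have hWl : W.length + T.length = Z.length := by
    rw [← hl1, e, hW]
    simp only [SimpleGraph.Walk.length_append, SimpleGraph.Walk.length_reverse]
    omega
  have hnd := hZ1.isTrail.edges_nodup
  rw [e, SimpleGraph.Walk.edges_append, SimpleGraph.Walk.edges_append] at hnd
  have hdis : ∀ f ∈ T.edges, f ∉ W.edges := by
    intro f hf hf'
    rw [hW, SimpleGraph.Walk.edges_append, SimpleGraph.Walk.edges_reverse,
      SimpleGraph.Walk.edges_reverse, List.mem_append, List.mem_reverse, List.mem_reverse] at hf'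
    rcases hf' with h | h
    · exact (List.nodup_append.1 hnd).2.2 f h f (List.mem_append.2 (Or.inl hf)) rfl
    · exact (List.nodup_append.1 (List.nodup_append.1 hnd).2.1).2.2 f hf f h rfl
  have hWs : ∀ y ∈ W.support, y ∈ Z1.support := by
    intro y hy
    rw [hW, SimpleGraph.Walk.mem_support_append_iff, SimpleGraph.Walk.support_reverse,
      SimpleGraph.Walk.support_reverse, List.mem_reverse, List.mem_reverse] at hy
    rw [e, SimpleGraph.Walk.mem_support_append_iff, SimpleGraph.Walk.mem_support_append_iff]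
    rcases hy with hy | hy
    · exact Or.inl hy
    · exact Or.inr (Or.inr hy)
  -- the sum of the degrees
  have hsum : ∑ y ∈ Z.support.toFinset, deg D.G y ≤ 2 * (Z.length + 1) + D.Kh * D.r * k := by
    have h1 : ∑ y ∈ Z.support.toFinset, deg D.G y ≤
        ∑ y ∈ Z.support.toFinset, (2 + if 3 ≤ deg D.G y then D.Kh * D.r else 0) := by
      refine Finset.sum_le_sum fun y hy => ?_
      rw [List.mem_toFinset] at hy
      by_cases h3 : 3 ≤ deg D.G y
      · rw [if_pos h3]
        exact (hG.deg_le y (HD.VN_U hD (hVN y hy))).trans (Nat.le_add_left _ _)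
      · rw [if_neg h3]
        omega
    rw [Finset.sum_add_distrib, Finset.sum_const, smul_eq_mul, ← Finset.sum_filter,
      Finset.sum_const, smul_eq_mul] at h1
    have h2 : Z.support.toFinset.card ≤ Z.length + 1 := by
      rw [← SimpleGraph.Walk.length_support]
      exact List.toFinset_card_le _
    have h3 : (Z.support.toFinset.filter (fun y => 3 ≤ deg D.G y)).card ≤ k := by
      refine le_trans ?_ hcard
      rw [← Set.ncard_coe_finset]
      refine Set.ncard_le_ncard ?_ (Set.toFinite _)
      intro z hz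
      rw [Finset.mem_coe, Finset.mem_filter, List.mem_toFinset] at hz
      refine ⟨hz.1, ?_⟩
      rw [← hG.dg_eq z (hVN z hz.1)]
      exact hz.2
    have h4 := Nat.mul_le_mul_right (D.Kh * D.r) h3
    rw [Nat.mul_comm k] at h4
    omega
  have hZl : 1 ≤ Z.length := by
    have := hZ.three_le_length
    omega
  have key := insert_walk D.G hcrit hab T W hTp hT2 hdis Z.support.toFinset
    (fun y hy _ _ => List.mem_toFinset.2 (hs1 y (hWs y hy))) (24 * k + 2 * (D.Kh * D.r * k))
    (cy_num hx hk hZl hTl hcnt (by rw [← hl1]; exact hlen) hsum (by omega))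
  refine Pool.Agent.Helper95.UP.kpl_le key ?_
  have hy : 1 ≤ D.Kh * D.r * k := Nat.mul_pos (by omega) hk
  have hpow : D.Kh * D.r * k ≤ (D.Kh * D.r * k) ^ 60 := Nat.le_self_pow (by norm_num) _
  have hkk : k ≤ D.Kh * D.r * k := Nat.le_mul_of_pos_left _ (by omega)
  refine max_le ?_ ?_ <;> omega

end Pool.Agent.Helper32.PL
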